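import Pool.Agent.K4H13.CV.Hyp
import Pool.Agent.K4H13.CV.Ex2

/-!
# Small nonzero central values of newforms of weight two and prime level
-/

set_option autoImplicit false

open Complex Filter Topology Set UpperHalfPlane MatrixGroups CongruenceSubgroup

namespace Pool.Agent.Results.MP_cc4f83_nt.SmallCentralValues

/-- the cusp forms of weight 2 for `Γ₀(N)` -/
abbrev S2 (N : ℕ) : Type := CuspForm (Gamma0 N : Subgroup (GL (Fin 2) ℝ)) 2

/-- the newforms of root number `ε`: `a(1) = 1`, real coefficients, Hecke relations, and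
`f(-1/(Nz)) = - ε N z² f(z)` with `ε = 1` or `ε = -1` (see `W388.IsNewf`) -/
def H (N : ℕ) (ε : ℝ) : Set (S2 N) := {f | W388.IsNewf N 2 f ε}

/-- all newforms -/
def HH (N : ℕ) : Set (S2 N) := H N 1 ∪ H N (-1)

/-- `L` is the L-function of `f`: the entire continuation of `∑ λ_f(n) n^(-s)`, where
`λ_f(n) = a(n) n^(-1/2)` -/
def IsLfun {N : ℕ} (f : S2 N) (L : ℂ → ℂ) : Prop :=
  Differentiable ℂ L ∧ ∀ s : ℂ, 3 < s.re → L s = ∑' n : ℕ, (W388.lamf f n : ℂ) * (n : ℂ) ^ (-s)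

open Classical in
/-- the central value `L(1/2, f)` -/
noncomputable def cv {N : ℕ} (f : S2 N) : ℝ :=
  if h : ∃ L : ℂ → ℂ, IsLfun f L then (h.choose (1 / 2)).re else 0

/-- the filter of the primes `N → ∞` -/
def primes : Filter ℕ := atTop ⊓ 𝓟 {N : ℕ | N.Prime}

open Pool.Agent.K4H13.CV Pool.Agent.Y18.BSD

theorem HH_eq (N : ℕ) : HH N = {f | ∃ ε : ℝ, W388.IsNewf N 2 f ε} := by
  ext f
  constructor
  · rintro (h | h)
    · exact ⟨1, h⟩
    · exact ⟨-1, h⟩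
  · rintro ⟨ε, h⟩
    rcases h.sign with rfl | rfl
    · exact Or.inl h
    · exact Or.inr h

theorem lfun {N : ℕ} [NeZero N] {f : S2 N} {ε : ℝ} (hf : W388.IsNewf N 2 f ε) :
    ∃ L : ℂ → ℂ, IsLfun f L ∧ L (1 / 2) = (cv f : ℂ) := by
  obtain ⟨L, hL, -⟩ := exists_IsL hf
  have h : ∃ L : ℂ → ℂ, IsLfun f L := ⟨L, hL.diff, hL.eq⟩
  have h1 : cv f = (h.choose (1 / 2)).re := by
    unfold cv
    rw [dif_pos h]
  have h2 : h.choose (1 / 2) = bv f 0 := lv_eq hf ⟨h.choose_spec.1, h.choose_spec.2⟩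
  refine ⟨h.choose, h.choose_spec, ?_⟩
  rw [h1, h2]
  exact (bv_zero_real hf).symm

theorem cv_eq {N : ℕ} [NeZero N] {f : S2 N} {ε : ℝ} (hf : W388.IsNewf N 2 f ε) :
    (cv f : ℂ) = bv f 0 := by
  obtain ⟨L, hL, h⟩ := lfun hf
  rw [← h]
  exact lv_eq hf ⟨hL.1, hL.2⟩

theorem norm_cv {N : ℕ} [NeZero N] {f : S2 N} {ε : ℝ} (hf : W388.IsNewf N 2 f ε) :
    |cv f| = ‖bv f 0‖ := by
  rw [← cv_eq hf, Complex.norm_real, Real.norm_eq_abs]

theorem ne_iff {N : ℕ} [NeZero N] {f : S2 N} {ε : ℝ} (hf : W388.IsNewf N 2 f ε) :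
    cv f ≠ 0 ↔ bv f 0 ≠ 0 := by
  rw [← cv_eq hf]
  exact_mod_cast Iff.rfl

/-- everything for one prime -/
theorem one {N : ℕ} (hN : N.Prime) (h3 : 3 ≤ N) : ∃ B : Finset (S2 N), HH N = B ∧
    N ≤ 12 * B.card + 13 ∧ (N : ℝ) ^ (-((332 : ℝ) * (B.card : ℝ))) ≤ ∏ f ∈ B with |cv f| ≠ 0, |cv f| ∧
    (∀ f ∈ B, |cv f| ≤ (N : ℝ) ^ (3 : ℝ)) ∧ ∀ f ∈ B, cv f ≠ 0 → f ∈ H N 1 := by
  haveI : NeZero N := ⟨hN.ne_zero⟩
  obtain ⟨B, hB, hBm⟩ := newform_basis N hN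
  have h2 : N ≠ 2 := by omega
  have hnewf : ∀ f ∈ B, ∃ ε : ℝ, W388.IsNewf N 2 f ε := fun f hf => (hBm f).1 hf
  have hN0 : (0 : ℝ) < N := Nat.cast_pos.2 hN.pos
  refine ⟨B, ?_, (dimS hyp hN h2 hB).2.1, ?_, ?_, ?_⟩
  · rw [HH_eq]
    ext f
    exact (hBm f).symm
  · classical
    have h1 := prod_low hyp hN h2 hB
    have e1 : ∏ f ∈ (Finset.univ : Finset B).filter (fun f => bv f.1 0 ≠ 0), ‖bv f.1 0‖ =
        ∏ f ∈ B with |cv f| ≠ 0, |cv f| := by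
      rw [Finset.prod_filter, Finset.prod_filter,
        ← Finset.prod_coe_sort B (fun f => if |cv f| ≠ 0 then |cv f| else 1)]
      refine Finset.prod_congr rfl fun f _ => ?_
      obtain ⟨ε, hε⟩ := hnewf f.1 f.2
      rw [norm_cv hε]
      simp only [ne_eq, norm_eq_zero]
    rw [← e1]
    refine le_trans (le_of_eq ?_) h1
    rw [Real.rpow_neg hN0.le, one_div]
    congr 1
    rw [show (332 : ℝ) * (B.card : ℝ) = ((332 * B.card : ℕ) : ℝ) by push_cast; rfl,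
      Real.rpow_natCast]
  · intro f hf
    obtain ⟨ε, hε⟩ := hnewf f hf
    rw [norm_cv hε]
    refine (bv_zero_bd hε (coef N hN f ε hε)).trans ?_
    have h3' : (3 : ℝ) ≤ N := by exact_mod_cast h3
    have e : (N : ℝ) ^ (3 : ℝ) = (N : ℝ) ^ 3 := by
      rw [show (3 : ℝ) = ((3 : ℕ) : ℝ) by norm_num, Real.rpow_natCast]
    rw [e]
    nlinarith [mul_pos hN0 hN0, mul_nonneg hN0.le (mul_self_nonneg ((N : ℝ) - 3))]
  · intro f hf hne
    obtain ⟨ε, hε⟩ := hnewf f hf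
    have h4 := sign_of_ne hε ((ne_iff hε).1 hne)
    rw [h4] at hε
    exact hε

/-- the number of the small values -/
theorem small_count {N : ℕ} (hN : N.Prime) (h3 : 3 ≤ N) {A : ℝ} (hA : 0 < A) :
    (({f ∈ HH N | cv f ≠ 0 ∧ |cv f| < (N : ℝ) ^ (-A)}.ncard : ℕ) : ℝ) ≤
      335 / A * ((HH N).ncard : ℝ) := by
  classical
  obtain ⟨B, hB, -, hp, hu, -⟩ := one hN h3
  have h1 := Fin.count B (fun f => |cv f|) (N : ℝ) 332 3 A (by exact_mod_cast hN.one_lt) hA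
    (by norm_num) (by norm_num) (fun f _ => abs_nonneg _) hu hp
  have e1 : ({f ∈ HH N | cv f ≠ 0 ∧ |cv f| < (N : ℝ) ^ (-A)} : Set (S2 N)) =
      ((B.filter fun f => |cv f| ≠ 0 ∧ |cv f| < (N : ℝ) ^ (-A) : Finset (S2 N)) : Set (S2 N)) := by
    ext f
    rw [hB]
    simp
  rw [e1, Set.ncard_coe_finset, hB, Set.ncard_coe_finset]
  convert h1 using 2
  norm_num

theorem result :
    (∀ N : ℕ, N.Prime → (HH N).Finite ∧
      ∀ f ∈ HH N, ∃ L : ℂ → ℂ, IsLfun f L ∧ L (1 / 2) = (cv f : ℂ)) ∧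
    (∀ N : ℕ, N.Prime → 3 ≤ N →
      (N : ℝ) ^ (-(332 * ((HH N).ncard : ℝ))) ≤ ∏ᶠ f ∈ {f ∈ HH N | cv f ≠ 0}, |cv f|) ∧
    (∀ N : ℕ, N.Prime → 3 ≤ N → ∀ A : ℝ, 0 < A →
      (({f ∈ HH N | cv f ≠ 0 ∧ |cv f| < (N : ℝ) ^ (-A)}.ncard : ℕ) : ℝ) ≤
        335 / A * ((HH N).ncard : ℝ)) ∧
    (∀ θ : ℝ, θ < liminf (fun N : ℕ =>
        (({f ∈ H N 1 | cv f ≠ 0}.ncard : ℕ) : ℝ) / ((HH N).ncard : ℝ)) primes ↔
      ∃ A : ℝ, 0 < A ∧ θ < liminf (fun N : ℕ =>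
        (({f ∈ H N 1 | (N : ℝ) ^ (-A) ≤ |cv f|}.ncard : ℕ) : ℝ) / ((HH N).ncard : ℝ)) primes) := by
  refine ⟨fun N hN => ?_, fun N hN h3 => ?_, fun N hN h3 A hA => small_count hN h3 hA, fun θ => ?_⟩
  · haveI : NeZero N := ⟨hN.ne_zero⟩
    obtain ⟨B, -, hBm⟩ := newform_basis N hN
    constructor
    · rw [HH_eq]
      refine (B.finite_toSet).subset fun f hf => (hBm f).2 hf
    · intro f hf
      rw [HH_eq] at hf
      obtain ⟨ε, hε⟩ := hf
      exact lfun hε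
  · classical
    obtain ⟨B, hB, -, hp, -, -⟩ := one hN h3
    rw [hB, Set.ncard_coe_finset]
    refine hp.trans (le_of_eq ?_)
    have e1 : ({f ∈ (B : Set (S2 N)) | cv f ≠ 0} : Set (S2 N)) =
        ((B.filter fun f => |cv f| ≠ 0 : Finset (S2 N)) : Set (S2 N)) := by
      ext f
      simp
    rw [e1, finprod_mem_coe_finset]
  · have hbot : primes.NeBot := by
      unfold primes
      rw [← frequently_mem_iff_neBot]
      exact Nat.frequently_atTop_iff_infinite.2 Nat.infinite_setOf_prime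
    have hprime : ∀ᶠ N in primes, N.Prime :=
      (eventually_principal.2 fun _ h => h : ∀ᶠ N in 𝓟 {N : ℕ | N.Prime}, N.Prime).filter_mono
        inf_le_right
    have hlarge : ∀ᶠ N in primes, 100 ≤ N :=
      (eventually_ge_atTop 100).filter_mono inf_le_left
    refine Fin.liminf_iff (l := primes) (fun N => ((HH N).ncard : ℝ))
      (fun N => (({f ∈ H N 1 | cv f ≠ 0}.ncard : ℕ) : ℝ))
      (fun A N => (({f ∈ H N 1 | (N : ℝ) ^ (-A) ≤ |cv f|}.ncard : ℕ) : ℝ)) 335 (by norm_num)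
      ?_ ?_ ?_ ?_ θ
    · filter_upwards [hprime, hlarge] with N hN h100
      obtain ⟨B, hB, hc, -⟩ := one hN (by omega)
      rw [hB, Set.ncard_coe_finset]
      have : 0 < B.card := by omega
      exact_mod_cast this
    · filter_upwards [hprime, hlarge] with N hN h100
      obtain ⟨B, hB, hc, -⟩ := one hN (by omega)
      refine ⟨Nat.cast_nonneg _, ?_⟩
      have hfin : (HH N).Finite := by rw [hB]; exact B.finite_toSet
      have hs : {f ∈ H N 1 | cv f ≠ 0} ⊆ HH N := fun f hf => Or.inl hf.1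
      exact Nat.cast_le.2 (Set.ncard_le_ncard hs hfin)
    · intro A
      filter_upwards [hprime, hlarge] with N hN h100
      obtain ⟨B, hB, hc, -⟩ := one hN (by omega)
      refine ⟨Nat.cast_nonneg _, ?_⟩
      have hfin : (HH N).Finite := by rw [hB]; exact B.finite_toSet
      have hN0 : (0 : ℝ) < N := Nat.cast_pos.2 hN.pos
      have hs : {f ∈ H N 1 | (N : ℝ) ^ (-A) ≤ |cv f|} ⊆ {f ∈ H N 1 | cv f ≠ 0} := by
        refine fun f hf => ⟨hf.1, fun h0 => ?_⟩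
        have h1 := hf.2
        rw [h0, abs_zero] at h1
        exact absurd (Real.rpow_pos_of_pos hN0 (-A)) (not_lt.2 h1)
      exact Nat.cast_le.2 (Set.ncard_le_ncard hs (hfin.subset fun f hf => Or.inl hf.1))
    · intro A hA
      filter_upwards [hprime, hlarge] with N hN h100
      obtain ⟨B, hB, hc, -⟩ := one hN (by omega)
      have hfin : (HH N).Finite := by rw [hB]; exact B.finite_toSet
      have hN0 : (0 : ℝ) < N := Nat.cast_pos.2 hN.pos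
      have h1 := small_count hN (by omega) hA
      have h2 : {f ∈ H N 1 | cv f ≠ 0} ⊆ {f ∈ H N 1 | (N : ℝ) ^ (-A) ≤ |cv f|} ∪
          {f ∈ HH N | cv f ≠ 0 ∧ |cv f| < (N : ℝ) ^ (-A)} := by
        intro f hf
        rcases le_or_gt ((N : ℝ) ^ (-A)) |cv f| with h | h
        · exact Or.inl ⟨hf.1, h⟩
        · exact Or.inr ⟨Or.inl hf.1, hf.2, h⟩
      have h3 : {f ∈ H N 1 | cv f ≠ 0}.ncard ≤ {f ∈ H N 1 | (N : ℝ) ^ (-A) ≤ |cv f|}.ncard +
          {f ∈ HH N | cv f ≠ 0 ∧ |cv f| < (N : ℝ) ^ (-A)}.ncard := by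
        refine (Set.ncard_le_ncard h2 ?_).trans (Set.ncard_union_le _ _)
        exact (hfin.subset fun f hf => Or.inl hf.1).union (hfin.subset fun f hf => hf.1)
      have h4 : (({f ∈ H N 1 | cv f ≠ 0}.ncard : ℕ) : ℝ) ≤
          (({f ∈ H N 1 | (N : ℝ) ^ (-A) ≤ |cv f|}.ncard : ℕ) : ℝ) +
          (({f ∈ HH N | cv f ≠ 0 ∧ |cv f| < (N : ℝ) ^ (-A)}.ncard : ℕ) : ℝ) := by
        exact_mod_cast h3
      linarith

end Pool.Agent.Results.MP_cc4f83_nt.SmallCentralValues
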